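import Pool.Agent.R882.ZL
import Pool.Agent.W619.TW.MDefs

/-!
# Bloch's conjecture for correspondences on surfaces: effective correspondences and towers

Let `V 0 ⇢ V 1 ⇢ ... ⇢ V k` be a tower (`LinesTower`, `Pool/Agent/R882/HL.lean`) of varieties of dimension
`2`, where `V k` is any unirational variety, each `V i`, `i < k`, is a component of a smooth complete
intersection, of any codimension `q`, of hypersurfaces of multidegrees `(d_{l,a})` in the product of the
projective lines with the coordinates `x_a`, `a = 1, ..., 2 + q`, with `Σ_l d_{l,a} = m_a + 2`, so that the
canonical divisor of `V i` is `O(m_a)`, and `V (i + 1)` is birational to the image of `V i` under the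
projection which forgets one coordinate `x_{a0}`. (If `V 0` is a smooth hypersurface then `k = 1` and `V 1`
is a product of projective lines. A triangular system `F 1 (t, y 1) = 0`, ..., `F k (t, y 1, ..., y k) = 0`
gives a tower if the first `i` equations define a smooth complete intersection for all `i`.) It is
assumed that `s i ≤ m_a + 1` for all `a ≠ a0`, for the numbers `m_a` of `V i`, where
`s i = s / (b 0 ⋯ b (i - 1))` and `b i` is the degree of `V i` over `V (i + 1)`; nothing is assumed about
`m_{a0}`.

Let `W` be any variety of dimension `2` and `Ω` an algebraically closed field of transcendence degree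
`2` over `ℂ` which contains the function field of `W`. An effective cycle `Z = ∑ m_i Z_i` of dimension
`2` on `W × V`, `V = V 0`, all of whose components dominate `W` and `V` is the same as a finite sum
`c = ∑ c(σ) σ`, `c(σ) ≥ 0`, of embeddings `σ : ℂ(V) → Ω` over `ℂ` which is invariant under the Galois group
of `Ω` over `ℂ(W)`: `Z_i` is an orbit of embeddings with the coefficient `m_i`. The theorem is about all
effective `c`; no invariance is needed. `[Z]^* = 0` on `H^{2,0}(V)` means that `∑ c(σ) σ^* ω = 0` for all
regular canonical forms `ω` on `V` (`NullTrace`, `Pool/Agent/R882/ZC.lean`).

The theorem: suppose that `[Z]^* = 0` on `H^{2,0}(V)`, and that the above holds for the number `s` of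
the different points of `V` over a general point of `W` (the number of the `σ` with `c(σ) ≠ 0`). Then `Z` is
the pullback of a cycle on `W × V'` for a unirational variety `V'` which is dominated by `V` (one of the
varieties of the tower): `c(σ) = c(τ)` for all `σ`, `τ` with the same restriction to `ℂ(V')`.

This is the open direction of the question for all these correspondences, `W = V = X` (`[Γ]_*^{2,0} = 0` if
and only if `[Γ]^* = 0` on `H^{2,0}`, by duality and complex conjugation). Since `CH_0(V') = ℤ`, the cycle
`Γ_*(w)`, the pullback of a cycle on `V'`, has a constant class, so `Γ_*` is zero on all cycles of degree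
zero (standard, not formalised here). The components of a cycle which do not dominate both factors have
no effect on `H^{2,0}`, and act by zero on the kernel of the Albanese map.

Proof: as for `NullTraceLines` of this problem, with the relations over one point of `V (i + 1)`: the
space of solutions has dimension one, and the Galois group of `Ω` over `ℂ(V (i + 1))` permutes the points
transitively; as the sum of the coefficients is not zero, they are all equal. The null trace passes
to the cycle on `W × V (i + 1)`.

`K` is the function field of `V`. `IsUnirational ℂ E 2`: `E` embeds in the field of rational functions in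
`2` variables (`Pool/Agent/W619/TW`).
-/

set_option autoImplicit false
set_option linter.overlappingInstances false

open FF Module Pool.Agent.W602.GT
open Pool.Agent.W619.TW (IsUnirational)
open Pool.Agent.R882.ZC (NullTrace PulledBack)
open Pool.Agent.R882.HL (LinesTower)

namespace Pool.Agent.Results.MP_31564d_ag.EffectiveLinesTowers

/-- **Effective correspondences.** Let `K` be the function field of the first variety `V` of a tower
of varieties of dimension `2` over a unirational variety, of height for the number of the
embeddings which occur in `c`, where `c` is an effective combination of embeddings of `K` in an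
algebraically closed field of transcendence degree `2`. If `c` has null trace then it is pulled back
from a unirational variety. -/
theorem result {K : Type} [Field K] [Algebra ℂ K] (hK : Algebra.trdeg ℂ K = 2)
    {Ω : Type} [Field Ω] [Algebra ℂ Ω] [IsAlgClosed Ω] (hΩ : Algebra.trdeg ℂ Ω = 2)
    (c : (K →ₐ[ℂ] Ω) →₀ ℤ) (effective : ∀ σ, 0 ≤ c σ) (hc : NullTrace 2 c)
    (tower : LinesTower 2 (fun E _ _ => IsUnirational ℂ E 2) K c.support.card) :
    PulledBack (fun E _ _ => IsUnirational ℂ E 2) c :=
  Pool.Agent.R882.ZC.lines_tower one_le_two tower (by rw [hΩ]; rfl) (by rw [hK]; rfl) c effective hc le_rfl

end Pool.Agent.Results.MP_31564d_ag.EffectiveLinesTowers
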