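import Pool.Agent.R905.BQ.MainE

/-!
# Bloch's conjecture for idempotent correspondences on surfaces and exterior products of zero-cycles

Let `X` be a variety of a class `𝒱` of smooth projective varieties over a field which is closed
under products, with Chow groups `C` (rational coefficients) and a Weil cohomology theory `W`, and
let `e ∈ CH^(dim X)(X × X)` be an idempotent correspondence which is homologically equivalent to a
sum of exterior products of cycles. For a complex surface `X` with `q = 0` the last condition says
that `e` acts as zero on `H^(2,0)(X)`, and Bloch's conjecture for `e` says that `e` acts as zero on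
the zero-cycles of degree zero, or equivalently (Bloch and Srinivas) that `e` is a sum of exterior
products of cycles in the Chow group of `X × X`. Example: `e = 1 - |G|⁻¹ ∑ g` for a finite group `G`
of automorphisms of `X` which acts trivially on `H^(2,0)(X)`.

Let `h_0, …, h_n` be endomorphisms of `X × X` of the form `g × g'` or `(g × g') ∘ (exchange)` with
`h_i^* e = e`: for example the identity, the exchange of the factors if `e` is symmetric, `g × g` for
an automorphism `g` which commutes with `e`, or all the elements of a finite group of such
automorphisms.

Theorem. (1) The following are equivalent:

* `e` is a sum of exterior products of cycles;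
* `e ∘ γ ∘ e = 0` for all homologically trivial `γ ∈ CH^(dim X)(X × X)`;
* `∑ h_i^*(e ∘ γ ∘ e)` is smash-nilpotent for all these `γ`.

(2) If `X` is a surface, and if homologically trivial divisors and homologically trivial `0`-cycles
on surfaces are smash-nilpotent (which is the case over the complex numbers), then these conditions
hold if and only if the correspondence `∑ h_i^* ∘ (ᵗe ⊗ e)` on `X × X` is a linear combination of
correspondences which factor through surfaces and of correspondences which factor with a shift of
codimensions. By the decomposition of the diagonal of Bloch and Srinivas this means that the
`0`-cycles `z × w` with `z`, `w` in the image of `e` (or, if the `h_i` form a finite group, the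
invariant part of the group which they generate) are supported on a surface in `X × X`.
-/

open Pool.Agent.H914 Pool.Agent.R903 Pool.Agent.R905.BQ

universe u v w

namespace Pool.Agent.Results.MP_31564d_ag.ExteriorSquares

theorem result {k : Type u} [Field k] {𝒱 : VarClass k} {C : ChowTheory.{u, v} 𝒱}
    (W : WeilTheory.{u, v, w} C) (X : 𝒱.Obj) (e : C.CH (X.prod X)) (he : IsIdem C e)
    (hd : HomDecomposable W e) {n : ℕ} (h : Fin (n + 1) → (X.prod X ⟶ X.prod X))
    (hh : ∀ i, ProductType (h i)) (hfix : ∀ i, C.pull (h i) e = e) :
    List.TFAE [Decomposable C e, PartZero W e, SumsNilpotent W e h] ∧
    (C.Polarized → SmallNilpotent W → X.dim = 2 →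
      (Decomposable C e ↔ SupportedOnSurface C (famSum C e h))) :=
  ⟨tfae_idem he hd h hh hfix, fun hP hW hX2 => idem_iff_supported hP hW hX2 he hd h hh hfix⟩

end Pool.Agent.Results.MP_31564d_ag.ExteriorSquares
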