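import Pool.Agent.R882.ZT

/-!
# Bloch's conjecture for correspondences on surfaces: nondegenerate complete intersections in tori

Let `V` be a component, of dimension `2`, of the set of common zeros in a torus `(ℂ^*) ^ (2 + q)` of a
system `f` of `q` Laurent polynomials which is nondegenerate in the sense of Khovanskii, with arbitrary
Newton polytopes, and let `V 1` be the image of `V` under monomials `t l = x ^ (w l)`, where
`ℂ(V) = ℂ(V 1)(y)` for a monomial `y = x ^ v`, of degree `b` over `ℂ(V 1)`. Suppose that `p_g(V 1) = 0` (for
example, `V` is a hypersurface `f(t, y) = 0` and `V 1` is a torus), and that there is a column of length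
`b - 1` and of width `M` in the Fine interior of the sum of the Newton polytopes: a vector `u` such that all
`u + j v` and `u + j v + M w l`, `j < b - 1`, are in the Fine interior.

Let `W` be any variety of dimension `2` and `Ω` an algebraically closed field of transcendence degree
`2` over `ℂ` which contains the function field of `W`. A cycle `Z = ∑ m_i Z_i` of dimension `2` on
`W × V` all of whose components dominate `W` and `V` is the same as a finite integral combination
`c = ∑ c(σ) σ` of embeddings `σ : ℂ(V) → Ω` over `ℂ` which is invariant under the Galois group of `Ω`
over `ℂ(W)`: `Z_i` is an orbit of embeddings with the coefficient `m_i`. The theorem is about all `c`; no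
invariance is needed. `[Z]^* = 0` on `H^{2,0}(V)` means that `∑ c(σ) σ^* ω = 0` for all regular
canonical forms `ω` on `V` (`NullTrace`, `Pool/Agent/R882/ZC.lean`).

The theorem: suppose that `[Z]^* = 0` on `H^{2,0}(V)` (of a smooth projective model), and that the
embeddings `σ` with `c(σ) ≠ 0` have at most `M + 1` distinct restrictions to `ℂ(V 1)`; for example, `Z` has
at most `M + 1` points over a general point of `W`. Then `c(σ) = c(τ)` for all `σ`, `τ` with the same
restriction to `ℂ(V 1)`, that is, `Z` is the pullback of a cycle on `W × V 1`. Nothing is assumed about
the signs of the coefficients.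

This is the open direction of the question for all these correspondences, `W = V = X` (`[Γ]_*^{2,0} = 0` if
and only if `[Γ]^* = 0` on `H^{2,0}`, by duality and complex conjugation). Let `V 1` be
rational (for instance a hypersurface `V` over a torus). Since `CH_0(V 1) = ℤ`, the cycle `Γ_*(w)`, the
pullback of a cycle on `V 1`, has a constant class, so `Γ_*` is zero on all cycles of degree zero
(standard, not formalised here). The components of a cycle which do not dominate both factors have no
effect on `H^{2,0}`, and act by zero on the kernel of the Albanese map, because they factor through a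
curve. So, for the cycles whose dominant part is as in the theorem, `[Γ]^{2,0} = 0` if and only if
`Γ_* = 0` on the kernel of the Albanese map.

Proof: the forms `A(t) x ^ u y ^ j Res`, where `Res` is the residue form, `j < b - 1` and `A` is a
polynomial of degree at most `M`, are regular, and by interpolation the points of `Z` over
different points of `V 1` do not interact. Over one point of `V 1` the relations with the powers
`y ^ j`, `j < b - 1`, have a space of solutions of dimension one, which is given by the full fibre,
because the traces of the forms to `V 1` are zero.

`K` is the function field of `V` and `x` its generic point. `GenusZero`: all canonical forms which are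
regular at all prime divisors of all models are zero (`Pool/Agent/R882/HT.lean`).
-/

set_option autoImplicit false
set_option linter.overlappingInstances false

open FF Module MvPolynomial Pool.Agent.W602.GT
open Pool.Agent
open Pool.Agent.R882.HT (GenusZero Nondegenerate IsTorusPoint InFine)
open Pool.Agent.R882.ZC (NullTrace HasColumn)

namespace Pool.Agent.Results.MP_31564d_ag.NullTraceTori

/-- The number of the different restrictions to the function field `ℂ(t)` of `V 1` of the embeddings
which occur in `c`. -/
noncomputable def numBelow {N : ℕ} {K Ω : Type} [Field K] [Algebra ℂ K] [Field Ω] [Algebra ℂ Ω]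
    (t : Fin N → K) (c : (K →ₐ[ℂ] Ω) →₀ ℤ) : ℕ :=
  Set.ncard {g : Fin N → Ω | ∃ σ, c σ ≠ 0 ∧ ∀ l, g l = σ (t l)}

/-- **Cycles with null trace.** Let `V` be a component, with function field `K` and generic point `x`,
of dimension `2`, of a nondegenerate complete intersection in a torus, `t l` the monomials with the
exponents `w l`, and `K = ℂ(t)(x ^ v)`, of finite degree over `ℂ(t)`, with a column of length
`[K : ℂ(t)] - 1` and width `M`, such that the image `V 1` of `V` under `t` has geometric genus zero. If an
integral combination `c` of embeddings of `K` in an algebraically closed field of transcendence degree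
`2` has null trace, with at most `M + 1` points over `V 1`, then it is pulled back from `V 1`. -/
theorem result {q N M : ℕ} {f : Fin q → (Fin (2 + q) → ℤ) →₀ ℂ} (nondeg : Nondegenerate f)
    {K : Type} [Field K] [Algebra ℂ K] {x : Fin (2 + q) → K} (point : IsTorusPoint f x)
    (hK : Algebra.trdeg ℂ K = 2) {v : Fin (2 + q) → ℤ} {w : Fin N → Fin (2 + q) → ℤ}
    {t : Fin N → K} (mono : ∀ l, t l = R885.mono x (w l))
    [FiniteDimensional (IntermediateField.adjoin ℂ (Set.range t)) K]
    (prim : IntermediateField.adjoin (IntermediateField.adjoin ℂ (Set.range t))
      {R885.mono x v} = ⊤)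
    (col : HasColumn f v w (Module.finrank (IntermediateField.adjoin ℂ (Set.range t)) K) M)
    (base : GenusZero (IntermediateField.adjoin ℂ (Set.range t)) 2)
    {Ω : Type} [Field Ω] [Algebra ℂ Ω] [IsAlgClosed Ω] (hΩ : Algebra.trdeg ℂ Ω = 2)
    (c : (K →ₐ[ℂ] Ω) →₀ ℤ) (hc : NullTrace 2 c) (positive : numBelow t c ≤ M + 1)
    (σ τ : K →ₐ[ℂ] Ω) (h : ∀ l, σ (t l) = τ (t l)) : c σ = c τ := by
  classical
  refine Pool.Agent.R882.ZC.torus_cycles nondeg point (by rw [hK]; rfl) mono prim col base (by rw [hΩ]; rfl) hc ?_ h
  refine le_trans (le_of_eq ?_) positive
  unfold numBelow
  rw [← Set.ncard_coe_finset]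
  congr 1
  ext g
  rw [Finset.coe_image, Set.mem_image, Set.mem_ofPred_eq]
  constructor
  · rintro ⟨ρ, hρ, rfl⟩
    exact ⟨ρ, Finsupp.mem_support_iff.1 hρ, fun _ => rfl⟩
  · rintro ⟨ρ, hρ, hg⟩
    exact ⟨ρ, Finsupp.mem_support_iff.2 hρ, (funext hg).symm⟩

end Pool.Agent.Results.MP_31564d_ag.NullTraceTori
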